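import Mathlib

set_option autoImplicit false

open scoped NNReal
open Metric Filter Topology

namespace Pool.Agent.Results.MP_e93574_an.FixedPoint

theorem lin_lower (γ : ℝ≥0 → ℝ≥0) (hmono : Monotone γ)
    (hsub : ∀ s t, γ (s + t) ≤ γ s + γ t) (t : ℝ≥0) (ht0 : 0 < t) (ht : t ≤ 1) :
    (γ 1 : ℝ) / 2 * t ≤ γ t := by
  have hn : ∀ n : ℕ, γ ((n + 1 : ℕ) * t) ≤ (n + 1 : ℕ) * γ t := by
    intro n
    induction n with
    | zero => simp
    | succ n ih =>
      have e : ((n + 1 + 1 : ℕ) : ℝ≥0) * t = ((n + 1 : ℕ) : ℝ≥0) * t + t := by push_cast; ring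
      rw [e]
      refine (hsub _ _).trans ?_
      have e2 : ((n + 1 + 1 : ℕ) : ℝ≥0) * γ t = ((n + 1 : ℕ) : ℝ≥0) * γ t + γ t := by push_cast; ring
      rw [e2]
      gcongr
  have ht0' : (0 : ℝ) < t := ht0
  have ht' : (t : ℝ) ≤ 1 := ht
  set n := ⌊(1 : ℝ) / t⌋₊ with hndef
  have h1 : (1 : ℝ) / t < n + 1 := Nat.lt_floor_add_one _
  have h2 : (n : ℝ) ≤ 1 / t := Nat.floor_le (by positivity)
  have h3 : (1 : ℝ≥0) ≤ (n + 1 : ℕ) * t := by
    rw [← NNReal.coe_le_coe]
    push_cast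
    rw [div_lt_iff₀ ht0'] at h1
    exact h1.le
  have h4 : (γ 1 : ℝ) ≤ (n + 1) * γ t := by
    have := (hmono h3).trans (hn n)
    exact_mod_cast this
  have h5 : ((n : ℝ) + 1) * t ≤ 2 := by
    rw [le_div_iff₀ ht0'] at h2
    nlinarith
  have h6 : (0 : ℝ) ≤ γ t := NNReal.coe_nonneg _
  have h7 : (γ 1 : ℝ) * t ≤ (n + 1) * γ t * t := mul_le_mul_of_nonneg_right h4 ht0'.le
  nlinarith

theorem result {X : Type*} [MetricSpace X] [CompleteSpace X] [Nonempty X]
    (θ γ : ℝ≥0 → ℝ≥0) (ε₀ : ℝ≥0) (hε₀ : 0 < ε₀)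
    (hcont : Continuous γ) (hmono : Monotone γ) (hsub : ∀ s t, γ (s + t) ≤ γ s + γ t)
    (hzero : γ ⁻¹' {0} = {0})
    (hθ : ∀ t, θ t ≤ ε₀ → γ t ≤ θ t)
    (T : X → Set X) (hne : ∀ x, (T x).Nonempty) (hclosed : ∀ x, IsClosed (T x))
    (hbdd : ∀ x, Bornology.IsBounded (T x))
    (hT : ∀ x y, hausdorffDist (T x) (T y) ≤ dist x y - (θ (nndist x y) : ℝ)) :
    ∃ x, x ∈ T x := by
  by_contra hno
  push Not at hno
  have hpos : ∀ t, 0 < t → (0 : ℝ) < γ t := by
    intro t ht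
    have : γ t ≠ 0 := by
      intro h
      have h1 : t ∈ γ ⁻¹' {0} := h
      rw [hzero] at h1
      exact ht.ne' h1
    exact_mod_cast pos_iff_ne_zero.2 this
  set δ : ℝ≥0 := min 1 ε₀ with hδ
  have hδ0 : 0 < δ := lt_min one_pos hε₀
  set c : ℝ := (γ 1 : ℝ) / 2 with hc
  have hc0 : 0 < c := by have := hpos 1 one_pos; positivity
  set η : ℝ := min (ε₀ : ℝ) (γ δ) with hη
  have hη0 : 0 < η := lt_min hε₀ (hpos δ hδ0)
  have hfin : ∀ x y, hausdorffEDist (T x) (T y) ≠ ⊤ := fun x y =>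
    hausdorffEDist_ne_top_of_nonempty_of_bounded (hne x) (hne y) (hbdd x) (hbdd y)
  -- uniform gain
  have hgain : ∀ x y : X, x ≠ y → min η (c * dist x y) ≤ θ (nndist x y) := by
    intro x y hxy
    have hd : 0 < nndist x y := by
      rw [pos_iff_ne_zero]; intro h; exact hxy (nndist_eq_zero.1 h)
    by_cases h1 : θ (nndist x y) ≤ ε₀
    · have h2 : (γ (nndist x y) : ℝ) ≤ θ (nndist x y) := hθ _ h1
      by_cases h3 : nndist x y ≤ δ
      · have := lin_lower γ hmono hsub _ hd (h3.trans (min_le_left _ _))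
        exact (min_le_right _ _).trans (this.trans h2)
      · have h4 : (γ δ : ℝ) ≤ γ (nndist x y) := hmono (le_of_not_ge h3)
        exact (min_le_left _ _).trans ((min_le_right _ _).trans (h4.trans h2))
    · have h2 : (ε₀ : ℝ) ≤ θ (nndist x y) := le_of_lt (lt_of_not_ge h1)
      exact (min_le_left _ _).trans ((min_le_left _ _).trans h2)
  have hstep : ∀ x y, y ∈ T x → ∃ z ∈ T y, dist y z ≤ dist x y - min η (c * dist x y) / 2 := by
    intro x y hy
    have hxy : x ≠ y := fun h => hno x (h ▸ hy)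
    have hd : 0 < dist x y := dist_pos.2 hxy
    have hm : 0 < min η (c * dist x y) := lt_min hη0 (by positivity)
    have h1 := hT x y
    have h2 := hgain x y hxy
    obtain ⟨z, hz, hz2⟩ := exists_dist_lt_of_hausdorffDist_lt (r := dist x y - min η (c * dist x y) / 2)
      hy (by linarith) (hfin x y)
    exact ⟨z, hz, hz2.le⟩
  choose! f hf1 hf2 using hstep
  obtain ⟨x0⟩ := ‹Nonempty X›
  obtain ⟨x1, hx1⟩ := hne x0
  let p : ℕ → X × X := fun n => Nat.rec (x0, x1) (fun _ q => (q.2, f q.1 q.2)) n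
  let u : ℕ → X := fun n => (p n).1
  have hp2 : ∀ n, (p n).2 = u (n + 1) := fun n => rfl
  have hmem : ∀ n, u (n + 1) ∈ T (u n) := by
    intro n
    induction n with
    | zero => exact hx1
    | succ n ih => exact hf1 _ _ ih
  have hdec : ∀ n, dist (u (n + 1)) (u (n + 2))
      ≤ dist (u n) (u (n + 1)) - min η (c * dist (u n) (u (n + 1))) / 2 := fun n => hf2 _ _ (hmem n)
  set d : ℕ → ℝ := fun n => dist (u n) (u (n + 1)) with hd
  have hd0 : ∀ n, 0 ≤ d n := fun n => dist_nonneg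
  have hm0 : ∀ n, 0 ≤ min η (c * d n) := fun n => le_min hη0.le (mul_nonneg hc0.le (hd0 n))
  have hanti : ∀ n, d n ≤ d 0 := by
    intro n
    induction n with
    | zero => exact le_rfl
    | succ n ih => have := hdec n; have := hm0 n; simp only [hd] at *; linarith
  have hd00 : 0 < d 0 := dist_pos.2 (fun h => hno (u 0) (by have := hmem 0; rwa [← h] at this))
  -- on the bounded range the gain is linear
  set κ : ℝ := min (η / d 0) c with hκ
  have hκ0 : 0 < κ := lt_min (div_pos hη0 hd00) hc0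
  have hlin : ∀ n, κ * d n ≤ min η (c * d n) := by
    intro n
    refine le_min ?_ (mul_le_mul_of_nonneg_right (min_le_right _ _) (hd0 n))
    calc κ * d n ≤ η / d 0 * d 0 :=
          mul_le_mul (min_le_left _ _) (hanti n) (hd0 n) (div_pos hη0 hd00).le
      _ = η := div_mul_cancel₀ _ hd00.ne'
  set r : ℝ := max (1 - κ / 2) 0 with hr
  have hr1 : r < 1 := max_lt (by linarith) one_pos
  have hr0 : 0 ≤ r := le_max_right _ _
  have hgeo : ∀ n, d n ≤ d 0 * r ^ n := by
    intro n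
    induction n with
    | zero => simp
    | succ n ih =>
      have h1 : d (n + 1) ≤ (1 - κ / 2) * d n := by
        have := hdec n; have := hlin n; simp only [hd] at *; linarith
      calc d (n + 1) ≤ r * d n := h1.trans (mul_le_mul_of_nonneg_right (le_max_left _ _) (hd0 n))
        _ ≤ r * (d 0 * r ^ n) := mul_le_mul_of_nonneg_left ih hr0
        _ = d 0 * r ^ (n + 1) := by ring
  obtain ⟨a, ha⟩ := cauchySeq_tendsto_of_complete (cauchySeq_of_le_geometric r (d 0) hr1 hgeo)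
  apply hno a
  rw [(hclosed a).mem_iff_infDist_zero (hne a)]
  refine le_antisymm ?_ infDist_nonneg
  have h1 : Tendsto (fun n => infDist (u (n + 1)) (T a)) atTop (𝓝 (infDist a (T a))) :=
    ((continuous_infDist_pt (T a)).tendsto a).comp (ha.comp (tendsto_add_atTop_nat 1))
  have h2 : Tendsto (fun n => dist (u n) a) atTop (𝓝 0) := tendsto_iff_dist_tendsto_zero.1 ha
  refine le_of_tendsto_of_tendsto' h1 h2 (fun n => ?_)
  have h3 := infDist_le_hausdorffDist_of_mem (hmem n) (hfin (u n) a)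
  have h4 := hT (u n) a
  have h5 : (0 : ℝ) ≤ θ (nndist (u n) a) := NNReal.coe_nonneg _
  linarith

end Pool.Agent.Results.MP_e93574_an.FixedPoint
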